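import Mathlib
import Pool.Agent.V11268.ML.Corr

set_option autoImplicit false

namespace Pool.Agent.Results.MP_e7878a_nt.Algorithm

open Polynomial Pool.Agent.V11268.ML

theorem exists_min (P : ℤ[X]) (hP : P ≠ 0) : ∃ F, IsMinMul P F := by
  classical
  have h : ∃ n, ∃ T : ℤ[X], P * T ≠ 0 ∧ len (P * T) = n :=
    ⟨_, 1, by rwa [mul_one], rfl⟩
  obtain ⟨T, hT, hTn⟩ := Nat.find_spec h
  refine ⟨P * T, hT, dvd_mul_right _ _, fun S hS => ?_⟩
  rw [hTn]
  exact Nat.find_min' h ⟨S, hS, rfl⟩

/-- One may take the constant term to be nonzero. -/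
theorem exists_min' (P : ℤ[X]) (hP : Irreducible P) (hlc : ¬ IsUnit P.leadingCoeff) :
    ∃ F, IsMinMul P F ∧ F.coeff 0 ≠ 0 := by
  obtain ⟨F, hF0, hPF, hmin⟩ := exists_min P hP.ne_zero
  set k := F.natTrailingDegree with hk
  have hlo : lo F k = 0 := by
    ext n
    rw [coeff_lo, coeff_zero]
    split_ifs with h
    · exact coeff_eq_zero_of_lt_natTrailingDegree h
    · rfl
  have hdec := hi_add_lo F k
  rw [hlo, add_zero] at hdec
  have hlen := len_hi_add_lo F k
  rw [hlo, (len_eq_zero 0).mpr rfl, add_zero] at hlen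
  have hc : (hi F k).coeff 0 ≠ 0 := by
    rw [coeff_hi, zero_add]
    exact mt trailingCoeff_eq_zero.mp hF0
  have hdvd : P ∣ hi F k := by
    rw [← hdec] at hPF
    exact (hP.prime.dvd_or_dvd hPF).resolve_left (not_dvd_X_pow P hP hlc k)
  refine ⟨hi F k, ⟨?_, hdvd, fun T hT => ?_⟩, hc⟩
  · intro h; rw [h, coeff_zero] at hc; exact hc rfl
  · rw [← hlen]; exact hmin T hT

/-- The algorithm `alg` is correct. -/
theorem alg_correct (l : List ℤ) (hP : Irreducible (polyOf l)) (hdeg : (polyOf l).natDegree ≠ 0)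
    (hlc : ¬ IsUnit (polyOf l).leadingCoeff) : IsMinMul (polyOf l) (polyOf (alg l)) := by
  set P := polyOf l with hPdef
  set L := lenL l with hL
  have hLP : L = len P := lenL_eq l
  have hL0 : lenL l ≠ 0 := by
    rw [lenL_eq, Ne, len_eq_zero]; exact hP.ne_zero
  obtain ⟨f1, f2, f3, f4⟩ := foldl_pick
    ((lists ((1 + 2 * lenL l) ^ bd l) (bd l)).map (mulL l)) l hL0
  change lenL (alg l) ≠ 0 at f1
  change alg l = l ∨ alg l ∈ _ at f2
  change ∀ c ∈ _, lenL c ≠ 0 → lenL (alg l) ≤ lenL c at f4
  obtain ⟨F, hF, hFc⟩ := exists_min' P hP hlc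
  have hbd := degree_bound P hP hdeg hlc F hF hFc
  obtain ⟨hF0, ⟨T, hT⟩, hmin⟩ := hF
  have hT0 : T ≠ 0 := by rintro rfl; rw [mul_zero] at hT; exact hF0 hT
  have hbd2 : F.natDegree < bd l := by
    refine lt_of_lt_of_le hbd ?_
    rw [bd, ← hL, hLP]
    apply Nat.pow_le_pow_left
    have := natDegree_polyOf l
    gcongr
  have hTdeg : T.natDegree ≤ F.natDegree := by
    rw [hT, natDegree_mul hP.ne_zero hT0]; omega
  have hFL : len F ≤ len P := by
    have := hmin 1 (by rw [mul_one]; exact hP.ne_zero)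
    rwa [mul_one] at this
  have hcoef : ∀ j, (T.coeff j).natAbs ≤ (1 + 2 * lenL l) ^ bd l := by
    intro j
    have h1 := coeff_quotient P T (leadingCoeff_ne_zero.mpr hP.ne_zero) L hLP.ge (fun i => by
      rw [← hT, hLP]; exact (natAbs_coeff_le_len F i).trans hFL) (bd l - 1) j (by omega)
    have h2 : bd l - 1 + 1 = bd l := by omega
    rwa [h2] at h1
  let t : List ℤ := (List.range (bd l)).map T.coeff
  have htlen : t.length = bd l := by simp [t]
  have hmem : t ∈ lists ((1 + 2 * lenL l) ^ bd l) (bd l) := by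
    have h := mem_lists ((1 + 2 * lenL l) ^ bd l) t (by
      intro x hx
      obtain ⟨j, -, rfl⟩ := List.mem_map.mp hx
      exact hcoef j)
    rwa [htlen] at h
  have hpoly : polyOf t = T := by
    ext i
    rw [coeff_polyOf]
    by_cases h : i < bd l
    · simp only [t]
      rw [List.getD_eq_getElem?_getD, List.getElem?_map, List.getElem?_range h]
      simp
    · rw [List.getD_eq_default _ _ (by rw [htlen]; omega),
        coeff_eq_zero_of_natDegree_lt (by omega)]
  have hcand : lenL (mulL l t) = len F := by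
    rw [lenL_eq, polyOf_mulL, hpoly, hT]
  have hfin : lenL (alg l) ≤ len F := by
    rw [← hcand]
    apply f4 _ (List.mem_map_of_mem hmem)
    rw [hcand, Ne, len_eq_zero]; exact hF0
  refine ⟨?_, ?_, fun S hS => ?_⟩
  · intro h0
    apply f1
    rw [lenL_eq, h0, len_eq_zero]
  · rcases f2 with h | h
    · rw [h]
    · obtain ⟨s, -, hs⟩ := List.mem_map.mp h
      rw [← hs, polyOf_mulL]
      exact dvd_mul_right _ _
  · rw [← lenL_eq]
    exact hfin.trans (hmin S hS)

/-- **Q1 (yes).** There is a computable function on coefficient lists which, for every irreducible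
integer polynomial of positive degree whose leading coefficient is not `±1` (in particular for all
those with all complex zeros in the closed unit disc), outputs the coefficient list of a
minimum-length multiple. -/
theorem result : ∃ f : List ℤ → List ℤ, Computable f ∧ ∀ l : List ℤ,
    Irreducible (polyOf l) → 1 ≤ (polyOf l).natDegree →
    (polyOf l).leadingCoeff ≠ 1 → (polyOf l).leadingCoeff ≠ -1 →
    IsMinMul (polyOf l) (polyOf (f l)) := by
  refine ⟨alg, computable_alg, fun l hP hdeg h1 h2 => ?_⟩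
  refine alg_correct l hP (by omega) ?_
  intro hu
  rcases Int.isUnit_iff.mp hu with h | h
  · exact h1 h
  · exact h2 h

end Pool.Agent.Results.MP_e7878a_nt.Algorithm
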